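import Mathlib

open Finset Filter Topology

namespace Pool.Agent.Results.MP_5c8a88_co.Infinite

section defs
variable {G : Type} [Group G]

/-- Finitely supported probability measures on `G`. -/
def P (G : Type) : Type := {μ : G →₀ ℝ // (∀ g, 0 ≤ μ g) ∧ μ.sum (fun _ c => c) = 1}

/-- `(μ * ν)(A) = ∑ c_j ν(g_j⁻¹ A)`. -/
noncomputable def conv (μ : P G) (ν : Set G → ℝ) (A : Set G) : ℝ :=
  μ.1.sum fun g c => c * ν ((g * ·) ⁻¹' A)

/-- Apply `inf` (letter `true`) or `sup` (letter `false`) over `P G`, first variable outermost. -/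
noncomputable def game : (n : ℕ) → (Fin n → Bool) → ((Fin n → P G) → ℝ) → ℝ
  | 0, _, φ => φ Fin.elim0
  | n + 1, e, φ => if e 0 then ⨅ ν, game n (Fin.tail e) fun v => φ (Fin.cons ν v)
      else ⨆ ν, game n (Fin.tail e) fun v => φ (Fin.cons ν v)

/-- The extremal density `e_s`. -/
noncomputable def extremal (n : ℕ) (s : Equiv.Perm (Fin n)) (e : Fin n → Bool) (A : Set G) : ℝ :=
  game n e fun ν => (List.ofFn fun j => ν (s j)).foldr conv (fun B => B.indicator 1 1) A

def Amenable (G : Type) [Group G] : Prop :=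
  ∃ m : Set G → ℝ, Monotone m ∧ m ∅ = 0 ∧ m Set.univ = 1 ∧
    (∀ A B, Disjoint A B → m (A ∪ B) = m A + m B) ∧ ∀ g A, m ((g * ·) '' A) = m A

lemma amen (h : ∀ F : Finset G, ∃ H : Subgroup G, (H : Set G).Finite ∧ ∀ g ∈ F, g ∈ H) :
    Amenable G := by
  choose H hf hm using h
  let U : Ultrafilter (Finset G) := .of atTop
  let f : Set G → Finset G → ℝ := fun A F => (A ∩ H F).ncard / (H F : Set G).ncard
  have p : ∀ F, (0 : ℝ) < (H F : Set G).ncard := fun F =>
    Nat.cast_pos.2 ((Set.ncard_pos (hf F)).2 ⟨1, (H F).one_mem⟩)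
  have mo : ∀ A B, A ⊆ B → ∀ F, f A F ≤ f B F := fun A B s F =>
    div_le_div_of_nonneg_right (Nat.cast_le.2 (Set.ncard_le_ncard (Set.inter_subset_inter_left _ s)
      ((hf F).inter_of_right _))) (p F).le
  have u : ∀ F, f Set.univ F = 1 := fun F => by simp [f, (p F).ne']
  have : ∀ A, ∃ r, Tendsto (f A) U (𝓝 r) := fun A => by
    obtain ⟨r, -, h⟩ := (isCompact_Icc (a := (0 : ℝ)) (b := 1)).ultrafilter_le_nhds (U.map (f A))
      (le_principal_iff.2 (mem_map.2 (univ_mem' fun F =>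
        ⟨by positivity, (mo _ _ (Set.subset_univ A) F).trans (u F).le⟩)))
    exact ⟨r, h⟩
  choose m hm' using this
  refine ⟨m, fun A B s => le_of_tendsto_of_tendsto' (hm' A) (hm' B) (mo A B s),
    tendsto_nhds_unique (hm' _) (by simp [f]),
    tendsto_nhds_unique (hm' _) (by rw [funext u]; exact tendsto_const_nhds),
    fun A B d => tendsto_nhds_unique (hm' _) (((hm' A).add (hm' B)).congr fun F => ?_),
    fun g A => tendsto_nhds_unique (hm' _) ((hm' A).congr' ?_)⟩
  · simp only [f]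
    rw [Set.union_inter_distrib_right, Set.ncard_union_eq (d.mono Set.inter_subset_left
      Set.inter_subset_left) ((hf F).inter_of_right _) ((hf F).inter_of_right _)]
    push_cast
    ring
  · filter_upwards [Ultrafilter.of_le _ (mem_atTop {g})] with F hF
    have q : g ∈ H F := hm F g (hF (mem_singleton_self g))
    simp only [f]
    rw [← Set.ncard_image_of_injective _ (mul_right_injective g)]
    congr 3
    ext x
    simp [(H F).mul_mem_cancel_left ((H F).inv_mem q)]

noncomputable def T (μ : P G) : (G → ℝ) →ₗ[ℝ] G → ℝ :=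
  ∑ g ∈ μ.1.support, μ.1 g • LinearMap.funLeft ℝ ℝ (· * g)

lemma T_apply (μ : P G) (f x) : T μ f x = ∑ g ∈ μ.1.support, μ.1 g * f (x * g) := by
  simp [T, LinearMap.funLeft]

lemma LT (L : (G → ℝ) →ₗ[ℝ] ℝ) (μ : P G) (f) :
    L (T μ f) = ∑ g ∈ μ.1.support, μ.1 g * L fun x => f (x * g) := by
  simp only [T, LinearMap.sum_apply, map_sum, LinearMap.smul_apply, map_smul, smul_eq_mul]
  rfl

omit [Group G] in
lemma avg (μ : P G) {f : G → ℝ} {c : ℝ} (h : ∀ g ∈ μ.1.support, f g ≤ c) :
    ∑ g ∈ μ.1.support, μ.1 g * f g ≤ c := by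
  refine (sum_le_sum fun g p => mul_le_mul_of_nonneg_left (h g p) (μ.2.1 g)).trans ?_
  rw [← sum_mul, show ∑ g ∈ μ.1.support, μ.1 g = 1 from μ.2.2, one_mul]

lemma fold (A : Set G) (l : List (P G)) : ∀ x, l.foldr conv (fun B => B.indicator 1 1)
    ((x * ·) ⁻¹' A) = l.foldr (fun μ f => T μ f) (A.indicator 1) x := by
  induction l with
  | nil => intro x; by_cases h : x ∈ A <;> simp [h]
  | cons μ l ih =>
    intro x
    simp only [List.foldr_cons, T_apply, conv, ← ih, Finsupp.sum, Set.preimage_preimage, mul_assoc]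

noncomputable def W (f : G → ℝ) : ℕ → ((G → ℝ) →ₗ[ℝ] ℝ) → ℝ
  | 0, L => ⨆ g, L (T g f)
  | k + 1, L => ⨅ κ, ⨆ h, W f k (L ∘ₗ T h ∘ₗ T κ)

def N : ℕ → ℕ
  | 0 => 1
  | k + 1 => N k + 2

def sf : (k : ℕ) → Fin (N k) → Fin (N k)
  | 0 => id
  | k + 1 => (Fin.cons (Fin.succ 0) (Fin.cons 0 fun j => (sf k j).succ.succ) :
      Fin (N k + 1 + 1) → Fin (N k + 1 + 1))

def ef : (k : ℕ) → Fin (N k) → Bool
  | 0 => fun _ => false
  | k + 1 => Fin.cons true (Fin.cons false (ef k))

lemma sf_inv : ∀ k, Function.Involutive (sf k)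
  | 0 => fun _ => rfl
  | k + 1 => fun j => by
    refine Fin.cases rfl (fun j => Fin.cases rfl (fun j => ?_) j) j
    exact congrArg (fun j => j.succ.succ) (sf_inv k j)

lemma link (f : G → ℝ) : ∀ k (L : (G → ℝ) →ₗ[ℝ] ℝ), game (N k) (ef k)
    (fun ν => L ((List.ofFn fun j => ν (sf k j)).foldr (fun μ f => T μ f) f)) = W f k L
  | 0, _ => rfl
  | k + 1, L => by
    refine iInf_congr fun κ => iSup_congr fun h => ?_
    rw [← link f k]
    refine congrArg (game (N k) (ef k)) (funext fun v => ?_)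
    exact congrArg (fun l : List (P G) => L (l.foldr (fun μ f => T μ f) f))
      ((List.ofFn_succ (n := N k + 1)).trans (congrArg _ (List.ofFn_succ (n := N k))))

def Good (L : (G → ℝ) →ₗ[ℝ] ℝ) (S : Finset G) : Prop :=
  L 1 = 1 ∧ ∀ f g, (∀ x ∈ S, f x ≤ g x) → L f ≤ L g

open Classical in
noncomputable def mS (S R : Finset G) : Finset G := image₂ (· * ·) S R

lemma mem_mS {S R : Finset G} {x} : x ∈ mS S R ↔ ∃ a ∈ S, ∃ b ∈ R, a * b = x := by
  classical simp only [mS, mem_image₂]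

lemma Good.T {L S} (h : Good L S) (μ : P G) : Good (L ∘ₗ T μ) (mS S μ.1.support) := by
  refine ⟨?_, fun f g p => h.2 _ _ fun x q => ?_⟩
  · rw [LinearMap.comp_apply, LT]
    simp only [Pi.one_apply, show (L fun _ => 1) = 1 from h.1, mul_one]
    exact μ.2.2
  · rw [T_apply, T_apply]
    exact sum_le_sum fun y r => mul_le_mul_of_nonneg_left (p _ (mem_mS.2 ⟨x, q, y, r, rfl⟩)) (μ.2.1 y)

noncomputable def pt (g : G) : P G := ⟨.single g 1, fun x => by
  classical rw [Finsupp.single_apply]; split_ifs <;> norm_num, by simp⟩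

instance : Nonempty (P G) := ⟨pt 1⟩

lemma W01 (A : Set G) : ∀ k L S, Good L S → W (A.indicator 1) k L ∈ Set.Icc (0 : ℝ) 1
  | 0, L, S, h => by
    have i : ∀ x, 0 ≤ A.indicator (1 : G → ℝ) x ∧ A.indicator (1 : G → ℝ) x ≤ 1 := fun x => by
      by_cases x ∈ A <;> simp [*]
    refine ⟨Real.iSup_nonneg fun g => ?_, ciSup_le fun g => ?_⟩
    · simpa using (h.T g).2 0 _ fun x _ => (i x).1
    · exact ((h.T g).2 _ 1 fun x _ => (i x).2).trans (h.T g).1.le
  | k + 1, L, S, h => by
    have i := fun κ g => W01 A k _ _ ((h.T g).T κ)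
    have j := fun κ => Real.iSup_nonneg fun g => (i κ g).1
    exact ⟨le_ciInf j, ciInf_le_of_le ⟨0, Set.forall_mem_range.2 j⟩ (pt 1)
      (ciSup_le fun g => (i _ g).2)⟩

end defs

abbrev Ω := List ℕ × ℕ × Bool

def FS : Subgroup (Equiv.Perm Ω) where
  carrier := {σ | ∃ S : Finset Ω, ∀ y ∉ S, σ y = y}
  one_mem' := ⟨∅, by simp⟩
  mul_mem' := fun ⟨S, a⟩ ⟨R, b⟩ => ⟨S ∪ R, fun y h => by
    rw [mem_union, not_or] at h; simp [a y h.1, b y h.2]⟩
  inv_mem' := fun ⟨S, a⟩ => ⟨S, fun y h => Equiv.Perm.inv_eq_iff_eq.2 (a y h).symm⟩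

/-- Elements fixing every point outside `Y`. -/
def Sy (Y : Set Ω) : Subgroup FS where
  carrier := {σ | ∀ y ∉ Y, σ.1 y = y}
  one_mem' := by simp
  mul_mem' := fun a b y h => by simp [a y h, b y h]
  inv_mem' := fun a y h => Equiv.Perm.inv_eq_iff_eq.2 (a y h).symm

lemma cover (F : Finset FS) : ∃ S : Finset Ω, ∀ g ∈ F, g ∈ Sy S := by
  choose s hs using fun g : FS => g.2
  exact ⟨F.biUnion s, fun g p y h => hs g y fun q => h (mem_biUnion.2 ⟨g, p, q⟩)⟩

lemma amenFS : Amenable FS := amen fun F => by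
  obtain ⟨S, h⟩ := cover F
  refine ⟨Sy S, ?_, h⟩
  have m : ∀ g ∈ Sy S, ∀ y ∈ S, g.1 y ∈ S := fun g p y q => by
    by_contra r
    exact r (by rwa [g.1.injective (p _ r)])
  refine Set.Finite.of_finite_image (f := fun g (y : S) => g.1 y.1)
    ((Set.Finite.pi' fun _ => S.finite_toSet).subset ?_) fun g p g' p' e => ?_
  · rintro _ ⟨g, p, rfl⟩ y
    exact m g p y y.2
  · ext1
    ext1 y
    by_cases q : y ∈ S
    · exact congrFun e ⟨y, q⟩
    · rw [p y q, p' y q]

def sw (a b : Ω) : FS := ⟨Equiv.swap a b, {a, b}, fun y h => by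
  rw [mem_insert, mem_singleton, not_or] at h
  exact Equiv.swap_apply_of_ne_of_ne h.1 h.2⟩

lemma move (S : Finset Ω) : ∀ X : Finset Ω, #S ≤ #X → ∃ u : FS, ∀ y ∈ S, u.1 y ∈ X := by
  induction S using Finset.induction with
  | empty => exact fun _ _ => ⟨1, by simp⟩
  | insert a S h ih =>
    intro X c
    rw [card_insert_of_notMem h] at c
    obtain ⟨x, p⟩ := card_pos.1 (show 0 < #X by omega)
    obtain ⟨u, q⟩ := ih (X.erase x) (by rw [card_erase_of_mem p]; omega)
    refine ⟨sw (u.1 a) x * u, fun y r => ?_⟩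
    rcases mem_insert.1 r with rfl | r
    · simpa [sw] using p
    · have := mem_erase.1 (q y r)
      have e : u.1 y ≠ u.1 a := fun e => h (u.1.injective e ▸ r)
      simpa [sw, Equiv.swap_apply_of_ne_of_ne e this.1] using this.2

def Y (p : List ℕ) : Set Ω := {y | y.1 <+: p ∧ 3 ≤ y.2.1 ∧ y.2.1 < y.1.sum}

def gf (p : List ℕ) (y : Ω) : Ω := if y.1 = p ∧ y.2.1 < 3 then (y.1, y.2.1, !y.2.2) else y

lemma gi (p) : Function.Involutive (gf p) := fun y => by
  by_cases h : y.1 = p ∧ y.2.1 < 3 <;> simp only [gf, h, if_false, if_true, and_self, Bool.not_not]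
  rw [← h.1]

def mk (p : List ℕ) : Finset Ω := {p} ×ˢ range 3 ×ˢ univ

def gp (p : List ℕ) : FS := ⟨(gi p).toPerm, mk p, fun y h => if_neg fun q => h (by
  simp only [mk, mem_product, mem_singleton, mem_range, mem_univ, q, and_self])⟩

def piece (p : List ℕ) : Set FS := {γ | γ * gp p ∈ Sy (Y p)}

lemma sep {p q γ δ} {S : Finset Ω} (c : #S ≤ 4) (hδ : δ ∈ Sy S) (a : γ ∈ piece p)
    (b : δ * γ ∈ piece q) : δ ∈ Sy (Y p) := by
  rcases eq_or_ne p q with rfl | e
  · have := (Sy _).mul_mem b ((Sy _).inv_mem a)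
    simpa [mul_assoc] using this
  · obtain ⟨y, u, v⟩ := exists_mem_notMem_of_card_lt_card (s := S) (t := mk p)
      (by simp [mk]; omega)
    simp only [mk, mem_product, mem_singleton, mem_range] at u
    have k : gf p y = (y.1, y.2.1, !y.2.2) := if_pos ⟨u.1, u.2.1⟩
    have a1 : γ.1 (gf p y) = y := a y fun h => by have := h.2.1; omega
    have b1 : δ.1 (γ.1 (gf q (gf p y))) = gf p y :=
      b _ fun h => by have := h.2.1; rw [k] at this; simp at this; omega
    rw [show gf q (gf p y) = gf p y from if_neg (by simp [k, u.1, e]), a1, hδ y v, k] at b1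
    simpa using congrArg (·.2.2) b1

def E (j t M : ℕ) : Set FS := {γ | ∃ p, p.length = j ∧ γ ∈ piece p ∧ t ≤ j ∧ (p.take t).sum ≤ M}

lemma low (j) : ∀ k L S l h, Good L S → l.length + k = j → (∀ x ∈ S, x * h⁻¹ ∈ Sy (Y l)) →
    1 ≤ W ((E j 0 0).indicator 1) k L
  | 0, L, S, l, h, g, e, s => by
    classical
    refine le_ciSup_of_le ⟨1, Set.forall_mem_range.2 fun μ => ((g.T μ).2 _ 1 fun x _ => by
      by_cases x ∈ E j 0 0 <;> simp [*]).trans (g.T μ).1.le⟩ (pt (h⁻¹ * (gp l)⁻¹)) ?_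
    refine g.1.ge.trans (g.2 _ _ fun x q => ?_)
    rw [T_apply, pt, Finsupp.support_single _ one_ne_zero, sum_singleton, Finsupp.single_eq_same,
      one_mul, Set.indicator_of_mem]
    · rfl
    · exact ⟨l, e, by simpa [piece, mul_assoc] using s x q, by simp⟩
  | k + 1, L, S, l, h, g, e, s => by
    refine le_ciInf fun κ => ?_
    obtain ⟨R, hR⟩ := cover κ.1.support
    let l' := l ++ [#R + 3]
    obtain ⟨u, hu⟩ := move R ({l'} ×ˢ Ico 3 (#R + 3) ×ˢ {true}) (by simp)
    refine le_ciSup_of_le ⟨1, Set.forall_mem_range.2 fun μ => (W01 _ k _ _ ((g.T μ).T κ)).2⟩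
      (pt (h⁻¹ * u)) (low j k _ _ l' u ((g.T _).T κ) (by simp [l']; omega) fun x q => ?_)
    obtain ⟨v, q', z, r, rfl⟩ := mem_mS.1 q
    obtain ⟨x, q'', w, t, rfl⟩ := mem_mS.1 q'
    rw [pt, Finsupp.support_single _ one_ne_zero, mem_singleton] at t
    rw [t, show x * (h⁻¹ * u) * z * u⁻¹ = x * h⁻¹ * (u * z * u⁻¹) by group]
    refine (Sy _).mul_mem (fun y n => s x q'' y fun m => n ⟨m.1.trans (List.prefix_append _ _), m.2⟩)
      fun y n => ?_
    have : u.1⁻¹ y ∉ R := fun m => n (by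
      have := hu _ m
      simp only [Equiv.Perm.coe_inv, Equiv.apply_symm_apply, mem_product, mem_singleton,
        mem_Ico] at this
      exact ⟨this.1 ▸ List.prefix_rfl, this.2.1.1, by rw [this.1]; simp [l']; omega⟩)
    have := hR z r _ this
    simp only [Subgroup.coe_mul, Subgroup.coe_inv, Equiv.Perm.mul_apply, this]
    simp

def tau (i : ℕ) : FS := sw ([], i, false) ([], i, true)

open Classical in
lemma count (j t M M' n : ℕ) (x y : FS) (h : ∀ i < n, (x.1 ([], i, false)).1.sum ≤ M') :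
    #{i ∈ range n | x * tau i * y ∈ E j t M \ E j (t + 1) M'} ≤ (t + 1) * (M * 2) + 1 := by
  set S := {i ∈ range n | x * tau i * y ∈ E j t M \ E j (t + 1) M'}
  rcases S.eq_empty_or_nonempty with e | ⟨i₀, e⟩
  · simp [e]
  obtain ⟨-, ⟨p, p1, p2, p3, p4⟩, p5⟩ := mem_filter.1 e
  have k : ∀ i ∈ S.erase i₀, x.1 ([], i, false) ∈ Y p := fun i q => by
    obtain ⟨q, r⟩ := mem_erase.1 q
    obtain ⟨-, ⟨p', -, r, -⟩, -⟩ := mem_filter.1 r
    have := sep (δ := x * tau i * (tau i₀)⁻¹ * x⁻¹) (S := {x.1 ([], i, false), x.1 ([], i, true),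
      x.1 ([], i₀, false), x.1 ([], i₀, true)}) (q := p') card_le_four (fun z hz => ?_) p2
      (by convert r using 1; group)
    · by_contra n
      simpa [tau, sw, Equiv.swap_apply_def, q] using this _ n
    · obtain ⟨z, rfl⟩ := x.1.surjective z
      simp only [coe_insert, coe_singleton, Set.mem_insert_iff, Set.mem_singleton_iff,
        EmbeddingLike.apply_eq_iff_eq, not_or] at hz
      simp [tau, sw, Equiv.swap_apply_of_ne_of_ne, hz]
  have := card_le_card_of_injOn (s := S.erase i₀) (t := range (t + 1) ×ˢ range M ×ˢ univ)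
    (fun i => ((x.1 ([], i, false)).1.length, (x.1 ([], i, false)).2)) (fun i q => ?_)
    fun i q i' q' e => ?_
  · rw [card_erase_of_mem e] at this
    simp at this
    omega
  · obtain ⟨a, -, b⟩ := k i q
    have c := h i (mem_range.1 (mem_filter.1 (mem_erase.1 q).2).1)
    have d : (x.1 ([], i, false)).1.length ≤ t := by
      by_contra d
      refine p5 ⟨p, p1, p2, by have := a.length_le; omega, le_trans ?_ c⟩
      exact (List.prefix_of_prefix_length_le (List.take_prefix _ _) a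
        (by simp; omega)).sublist.sum_le_sum (by simp)
    have : (x.1 ([], i, false)).1.sum ≤ (p.take t).sum :=
      (List.prefix_take_iff.2 ⟨a, d⟩).sublist.sum_le_sum (by simp)
    simp
    omega
  · obtain ⟨e1, e2⟩ := Prod.mk.inj e
    have a := (k i q).1
    have := Prod.ext ((List.prefix_of_prefix_length_le a (k i' q').1 e1.le).eq_of_length e1) e2
    simpa using this

noncomputable def kap (n : ℕ) : P FS := ⟨∑ i ∈ range (n + 1), .single (tau i) (1 / (n + 1)),
  fun x => by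
    classical
    rw [Finsupp.finsetSum_apply]
    exact sum_nonneg fun i _ => by rw [Finsupp.single_apply]; split_ifs <;> positivity, by
    rw [← Finsupp.sum_finsetSum_index (by simp) (by simp)]
    simp
    field_simp⟩

lemma Tkap (n f x) : T (kap n) f x = ∑ i ∈ range (n + 1), f (x * tau i) / (n + 1) := by
  rw [T_apply]
  refine (Finsupp.sum_finsetSum_index (h := fun g c => c * f (x * g)) (by simp)
    (by simp [add_mul])).symm.trans (sum_congr rfl fun i _ => ?_)
  rw [Finsupp.sum_single_index (by simp)]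
  ring

lemma up (j) {ε : ℝ} (hε : 0 < ε) : ∀ k t M L S c, Good L S → j < t + k →
    (∀ y, L (fun x => (E j 0 0 \ E j t M).indicator 1 (x * y)) ≤ c) →
    W ((E j 0 0).indicator 1) k L ≤ c + k * ε
  | 0, t, M, L, S, c, _, e, h => by
    have : E j t M = ∅ := Set.eq_empty_of_forall_notMem fun _ ⟨_, _, _, _, _⟩ => by omega
    rw [this, Set.sdiff_empty] at h
    exact ciSup_le fun g => by rw [LT]; simpa using avg g fun y _ => h y
  | k + 1, t, M, L, S, c, g, e, h => by
    classical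
    obtain ⟨n, hn⟩ := exists_nat_gt ((((t + 1) * (M * 2) + 1 : ℕ) : ℝ) / ε)
    refine ciInf_le_of_le ⟨0, Set.forall_mem_range.2 fun κ => Real.iSup_nonneg fun μ =>
      (W01 _ k _ _ ((g.T μ).T κ)).1⟩ (kap n) (ciSup_le fun μ => ?_)
    let S' := mS S μ.1.support
    let M' := (S' ×ˢ range (n + 1)).sup fun z => (z.1.1 ([], z.2, false)).1.sum
    refine (up j hε k (t + 1) M' _ _ (c + ε) ((g.T μ).T _) (by omega) fun y => ?_).trans
      (by push_cast; linarith)
    have a : (L ∘ₗ T μ ∘ₗ T (kap n)) (fun x => (E j 0 0 \ E j t M).indicator 1 (x * y)) ≤ c := by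
      rw [← LinearMap.comp_assoc, LinearMap.comp_apply, LT]
      refine avg _ fun z _ => ?_
      rw [LinearMap.comp_apply, LT]
      exact avg _ fun w _ => by simpa only [mul_assoc] using h (w * (z * y))
    refine ((g.T μ).2 _ (T (kap n) (fun x => (E j 0 0 \ E j t M).indicator 1 (x * y)) + ε • 1)
      fun x q => ?_).trans (by rw [map_add, map_smul, (g.T μ).1]; simpa using a)
    have b := count j t M M' (n + 1) x y fun i r =>
      le_sup (f := fun z : FS × ℕ => (z.1.1 ([], z.2, false)).1.sum)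
        (mk_mem_product q (mem_range.2 r))
    rw [card_filter] at b
    have b' : ∑ i ∈ range (n + 1), (if x * tau i * y ∈ E j t M \ E j (t + 1) M' then (1 : ℝ) else 0)
        ≤ ε * (n + 1) := by
      rw [div_lt_iff₀ hε] at hn
      exact le_trans (by exact_mod_cast b) (hn.le.trans (by nlinarith))
    simp only [Pi.add_apply, Tkap, ← sum_div, Pi.smul_apply, Pi.one_apply, smul_eq_mul, mul_one]
    rw [div_add' _ _ _ (by positivity)]
    refine div_le_div_of_nonneg_right (le_trans ?_ (add_le_add_right b' _)) (by positivity)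
    rw [← sum_add_distrib]
    refine sum_le_sum fun i _ => ?_
    by_cases x * tau i * y ∈ E j 0 0 <;> by_cases x * tau i * y ∈ E j t M <;>
      by_cases x * tau i * y ∈ E j (t + 1) M' <;> simp [*]

theorem result : ∃ (G : Type) (_ : Group G), Amenable G ∧
    {D : Set G → ℝ | ∃ n ≥ 1, ∃ s e, D = extremal n s e}.Infinite := by
  have g : Good (LinearMap.proj 1 : (FS → ℝ) →ₗ[ℝ] ℝ) {1} := ⟨rfl, fun f g h => h 1 (by simp)⟩
  have k : ∀ k (A : Set FS), extremal (N k) (sf_inv k).toPerm (ef k) A =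
      W (A.indicator 1) k (.proj 1) := fun k A => by
    rw [← link, extremal]
    refine congrArg _ (funext fun ν => ?_)
    simpa using fold A _ 1
  refine ⟨FS, inferInstance, amenFS, Set.infinite_of_injective_forall_mem
    (f := fun k => extremal (N k) (sf_inv k).toPerm (ef k))
    (Function.Injective.of_lt_imp_ne fun a b h e => ?_) fun k => ⟨_, by cases k <;> simp [N], _, _, rfl⟩⟩
  have e := congrFun e (E a 0 0)
  have p := low a a _ _ [] 1 g (by simp) (by simp)
  have q := up a (ε := 1 / (b + 1)) (by positivity) b 0 0 _ _ 0 g (by omega) (by simp)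
  simp only [k] at e
  have : (b : ℝ) * (1 / (b + 1)) < 1 := by rw [mul_one_div, div_lt_one (by positivity)]; simp
  linarith

end Pool.Agent.Results.MP_5c8a88_co.Infinite
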